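import Pool.Agent.H65.HW.GBas

/-!
# Project HW, parts WIN, LOO, YYE (helper27)
-/

set_option autoImplicit false
open Classical Finset

namespace Pool.Agent.H27.HW

open Pool.Agent.H21.HV (nb Prp TotLab)
open Pool.Agent.H39.HW (sm Av ln blk lab Dat Sch Reg S_GRA S_SCH S_FIN)
open Pool.Agent.H65.HW

/-- Greedy vertex labelling from lists. -/
theorem greedy {V : Type} [Fintype V] (G : SimpleGraph V) (L : V → Finset ℕ)
    (h : ∀ v, (univ.filter fun u => G.Adj v u ∧ ¬ Disjoint (L u) (L v)).card < (L v).card) :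
    ∃ x : V → ℕ, (∀ v, x v ∈ L v) ∧ ∀ u v, G.Adj u v → x u ≠ x v := by
  have key : ∀ S : Finset V, ∃ x : V → ℕ, (∀ v ∈ S, x v ∈ L v) ∧
      ∀ u ∈ S, ∀ v ∈ S, G.Adj u v → x u ≠ x v := by
    intro S
    induction S using Finset.induction_on with
    | empty => exact ⟨fun _ => 0, by simp, by simp⟩
    | insert w S hw ih =>
      obtain ⟨x, hx1, hx2⟩ := ih
      have h1 : ((univ.filter fun u => G.Adj w u ∧ ¬ Disjoint (L u) (L w)).image x).card <
          (L w).card := lt_of_le_of_lt Finset.card_image_le (h w)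
      obtain ⟨n, hn, hn'⟩ := Finset.exists_mem_notMem_of_card_lt_card h1
      have h2 : ∀ u ∈ S, G.Adj w u → x u ≠ n := by
        intro u hu hadj he
        apply hn'
        refine Finset.mem_image.2 ⟨u, Finset.mem_filter.2 ⟨Finset.mem_univ _, hadj, ?_⟩, he⟩
        intro hd
        exact Finset.disjoint_left.1 hd (hx1 u hu) (he ▸ hn)
      refine ⟨Function.update x w n, ?_, ?_⟩
      · intro v hv
        by_cases hvw : v = w
        · subst hvw
          simpa using hn
        · rw [Function.update_of_ne hvw]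
          exact hx1 v ((Finset.mem_insert.1 hv).resolve_left hvw)
      · intro u hu v hv hadj
        by_cases huw : u = w
        · subst huw
          have hvu : v ≠ u := hadj.ne'
          rw [Function.update_self, Function.update_of_ne hvu]
          exact (h2 v ((Finset.mem_insert.1 hv).resolve_left hvu) hadj).symm
        · by_cases hvw : v = w
          · subst hvw
            rw [Function.update_self, Function.update_of_ne huw]
            exact h2 u ((Finset.mem_insert.1 hu).resolve_left huw) hadj.symm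
          · rw [Function.update_of_ne huw, Function.update_of_ne hvw]
            exact hx2 u ((Finset.mem_insert.1 hu).resolve_left huw) v
              ((Finset.mem_insert.1 hv).resolve_left hvw) hadj
  obtain ⟨x, h1, h2⟩ := key univ
  exact ⟨x, fun v => h1 v (mem_univ _), fun u v huv => h2 u (mem_univ _) v (mem_univ _) huv⟩

section

variable {V : Type} [Fintype V] {G : SimpleGraph V} {D p : ℕ} {s : Dat} {cl : V → ℕ}

omit [Fintype V] in
theorem nb_mono (G G' : SimpleGraph V) (S S' : Finset V) (v : V)
    (h : ∀ u ∈ S, G.Adj v u → u ∈ S' ∧ G'.Adj v u) : nb G S v ≤ nb G' S' v := by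
  unfold nb
  apply Finset.card_le_card
  intro u hu
  rw [Finset.mem_filter] at hu ⊢
  exact h u hu.1 hu.2

theorem nb_univ_le (G G' : SimpleGraph V) (v : V) (P : V → Prop)
    (h : ∀ u, G.Adj v u → G'.Adj v u ∧ P u) :
    nb G univ v ≤ (univ.filter fun u => G'.Adj v u ∧ P u).card := by
  unfold nb
  apply Finset.card_le_card
  intro u hu
  rw [Finset.mem_filter] at hu ⊢
  exact ⟨hu.1, h u hu.2⟩

/-- number of neighbours in the special cells -/
theorem nb_spe_le (h : Ctx G D p s cl) (v : V) :
    ((univ.filter fun u => G.Adj v u ∧ s.B ≤ cl u).card : ℝ) ≤ s.m * (s.ω + s.δ) * D := by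
  have h1 : (univ.filter fun u => G.Adj v u ∧ s.B ≤ cl u).card ≤
      ∑ y ∈ range s.m, nb G (cell cl (s.B + y)) v := by
    have h2 : (univ.filter fun u => G.Adj v u ∧ s.B ≤ cl u) ⊆
        (range s.m).biUnion fun y => (cell cl (s.B + y)).filter fun u => G.Adj v u := by
      intro u hu
      rw [Finset.mem_filter] at hu
      obtain ⟨_, hadj, hB⟩ := hu
      have h3 : s.B ≤ cl u ∧ cl u < s.B + s.m := by
        rcases h.val u with h3 | h3
        · have := row_lt h.sch h3
          omega
        · exact h3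
      refine Finset.mem_biUnion.2 ⟨cl u - s.B, Finset.mem_range.2 (by omega),
        Finset.mem_filter.2 ⟨mem_cell.2 (by omega), hadj⟩⟩
    exact (Finset.card_le_card h2).trans Finset.card_biUnion_le
  have h4 : (∑ y ∈ range s.m, nb G (cell cl (s.B + y)) v : ℝ) ≤
      ∑ y ∈ range s.m, (s.ω + s.δ) * D := by
    apply Finset.sum_le_sum
    intro y hy
    have := (abs_le.1 (h.spe v y (Finset.mem_range.1 hy))).2
    linarith
  rw [Finset.sum_const, Finset.card_range, nsmul_eq_mul] at h4
  have h5 : ((univ.filter fun u => G.Adj v u ∧ s.B ≤ cl u).card : ℝ) ≤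
      (∑ y ∈ range s.m, nb G (cell cl (s.B + y)) v : ℕ) := by exact_mod_cast h1
  rw [Nat.cast_sum] at h5
  linarith

/-- the windows -/
noncomputable def Lw (D p : ℕ) (s : Dat) (cl : V → ℕ) (v : V) : Finset ℕ :=
  if s.B ≤ cl v then
    (if s.ty (s.part (cl v - s.B)) = true then range s.ξ
      else Finset.Ico (D + 2 * p - s.ξ) (D + 2 * p))
  else blk s.st (cl v)

theorem row_of_not (h : Ctx G D p s cl) {v : V} (hv : ¬ s.B ≤ cl v) : cl v ∈ s.R :=
  (h.val v).resolve_right fun h1 => hv h1.1

/-- position of the rows -/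
theorem row_pos (h : Sch D p s) {a : ℕ} (ha : a ∈ s.R) :
    s.ξ ≤ s.st a ∧ s.st (a + 1) + s.ξ ≤ D + 2 * p := by
  have hm := mono_of h.stm
  have h1 := h.hR a ha
  have h2 := h.KB 0 (by omega)
  have h3 := h.KB (a + 1) (by omega)
  have h4 : s.st (0 + s.K) ≤ s.st a := hm (by omega)
  have h5 : s.st (a + 1 + s.K) ≤ s.st s.B := hm (by omega)
  rw [h.stB] at h5
  have h6 := h.xi2
  omega

theorem t_WIN : S_WIN := by
  intro V _ G D p s cl h
  have hs := h.sch
  obtain ⟨x, hx1, hx2⟩ := greedy G (Lw D p s cl) (by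
    intro v
    by_cases hv : s.B ≤ cl v
    · -- special vertices
      have hcard : (Lw D p s cl v).card = s.ξ := by
        unfold Lw
        rw [if_pos hv]
        have h2 := hs.xi3
        split_ifs
        · simp
        · rw [Nat.card_Ico]; omega
      rw [hcard]
      have h1 : (univ.filter fun u => G.Adj v u ∧ ¬ Disjoint (Lw D p s cl u) (Lw D p s cl v)) ⊆
          univ.filter fun u => G.Adj v u ∧ s.B ≤ cl u := by
        intro u hu
        rw [Finset.mem_filter] at hu ⊢
        refine ⟨hu.1, hu.2.1, ?_⟩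
        by_contra hc
        apply hu.2.2
        have hr := row_pos hs (row_of_not h hc)
        unfold Lw
        rw [if_pos hv, if_neg hc, Finset.disjoint_left]
        intro n hn hn'
        rw [mem_blk] at hn
        split_ifs at hn' with ht
        · rw [Finset.mem_range] at hn'
          omega
        · rw [Finset.mem_Ico] at hn'
          omega
      have h2 := Finset.card_le_card h1
      have h3 := nb_spe_le h v
      have h4 := hs.xi1
      have h5 : ((univ.filter fun u => G.Adj v u ∧
          ¬ Disjoint (Lw D p s cl u) (Lw D p s cl v)).card : ℝ) < s.ξ := by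
        have h6 : ((univ.filter fun u => G.Adj v u ∧
          ¬ Disjoint (Lw D p s cl u) (Lw D p s cl v)).card : ℝ) ≤
          (univ.filter fun u => G.Adj v u ∧ s.B ≤ cl u).card := by exact_mod_cast h2
        linarith
      exact_mod_cast h5
    · -- rows
      have hr := row_of_not h hv
      have hcard : (Lw D p s cl v).card = ln s.st (cl v) := by
        unfold Lw
        rw [if_neg hv, card_blk]
      rw [hcard]
      have h1 : (univ.filter fun u => G.Adj v u ∧ ¬ Disjoint (Lw D p s cl u) (Lw D p s cl v)) ⊆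
          (cell cl (cl v)).filter fun u => G.Adj v u := by
        intro u hu
        rw [Finset.mem_filter] at hu ⊢
        refine ⟨mem_cell.2 ?_, hu.2.1⟩
        by_contra hc
        apply hu.2.2
        have hp := row_pos hs hr
        unfold Lw
        rw [if_neg hv]
        by_cases hu' : s.B ≤ cl u
        · rw [if_pos hu', Finset.disjoint_left]
          intro n hn hn'
          rw [mem_blk] at hn'
          split_ifs at hn with ht
          · rw [Finset.mem_range] at hn
            omega
          · rw [Finset.mem_Ico] at hn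
            omega
        · rw [if_neg hu']
          exact blk_disj hs.stm hc
      have h2 := Finset.card_le_card h1
      have h3 := nb_row_lt h v hr (row_lt hs hr)
      unfold nb at h3
      omega)
  refine ⟨x, ⟨?_, ?_, ?_, hx2⟩⟩
  · intro v hv
    have h1 := hx1 v
    have h2 : ¬ s.B ≤ cl v := by
      have := row_lt hs hv
      omega
    unfold Lw at h1
    rw [if_neg h2] at h1
    exact mem_blk.1 h1
  · intro v hv ht
    have h1 := hx1 v
    unfold Lw at h1
    rw [if_pos hv, if_pos ht] at h1
    exact Finset.mem_range.1 h1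
  · intro v hv ht
    have h1 := hx1 v
    unfold Lw at h1
    rw [if_pos hv, if_neg (by rw [ht]; simp)] at h1
    rw [Finset.mem_Ico] at h1
    omega

theorem t_LOO (hV : S_VIZ) : S_LOO := by
  intro V _ G D p s cl h
  have hs := h.sch
  -- the graph of one row
  let Γ : ℕ → SimpleGraph V := fun a =>
    { Adj := fun u v => G.Adj u v ∧ cl u = a ∧ cl v = a
      symm := ⟨fun u v huv => ⟨huv.1.symm, huv.2.2, huv.2.1⟩⟩
      loopless := ⟨fun u hu => G.loopless.irrefl u hu.1⟩ }
  have key : ∀ a, ∃ c : V → V → ℕ, (∀ u v, c u v = c v u) ∧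
      (a ∈ s.R → Prp (Γ a) (ln s.st (sm s.B a a)) c) := by
    intro a
    by_cases ha : a ∈ s.R
    · have hb := (dist_rows hs ha ha).1
      obtain ⟨c, hc⟩ := hV V (Γ a) (ln s.st (sm s.B a a) - 1) (by
        intro v
        have h1 : nb (Γ a) univ v ≤ nb G (cell cl a) v :=
          nb_mono _ _ _ _ _ fun u _ hu => ⟨mem_cell.2 hu.2.2, hu.1⟩
        have h2 := nb_row_lt h v ha hb
        omega)
      refine ⟨c, hc.1, fun _ => ?_⟩
      have h2 : ln s.st (sm s.B a a) - 1 + 1 = ln s.st (sm s.B a a) := by
        have h3 := hs.lnl _ hb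
        have h4 : (0 : ℝ) ≤ (s.μ + 2 * s.δ) * D :=
          mul_nonneg (by have := mu_pos hs; have := hs.dpos; linarith) (Nat.cast_nonneg D)
        have h5 : (2 : ℝ) ≤ ln s.st (sm s.B a a) := by linarith
        have h6 : 2 ≤ ln s.st (sm s.B a a) := by exact_mod_cast h5
        omega
      rwa [h2] at hc
    · exact ⟨fun _ _ => 0, fun _ _ => rfl, fun h => absurd h ha⟩
  choose c hc0 hc using key
  refine ⟨fun u v => if cl u = cl v then s.st (sm s.B (cl u) (cl u)) + c (cl u) u v else 0,
    ⟨?_, ?_, ?_⟩⟩
  · intro u v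
    by_cases he : cl u = cl v
    · simp only [he, if_true]
      rw [hc0 _ u v]
    · simp only [he, if_false]
      rw [if_neg fun h => he h.symm]
  · intro u v hadj hR he
    simp only [he, if_true]
    rw [he] at hR
    have h1 := (hc _ hR).2.1 u v ⟨hadj, he, rfl⟩
    rw [mem_blk]
    have h2 := hs.stm (sm s.B (cl v) (cl v))
    unfold ln at h1
    omega
  · intro u v w huv huw hR h1 h2 hne
    have h3 := (hc _ hR).2.2 u v w ⟨huv, rfl, h1.symm⟩ ⟨huw, rfl, h2.symm⟩ hne
    simp only [← h1, ← h2, if_true]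
    omega

theorem t_YYE (hG : S_GRE) : S_YYE := by
  intro V _ G D p s cl h
  have hs := h.sch
  let Γ : SimpleGraph V :=
    { Adj := fun u v => G.Adj u v ∧ s.B ≤ cl u ∧ s.B ≤ cl v
      symm := ⟨fun u v huv => ⟨huv.1.symm, huv.2.2, huv.2.1⟩⟩
      loopless := ⟨fun u hu => G.loopless.irrefl u hu.1⟩ }
  have hpart : ∀ v, s.B ≤ cl v → s.part (cl v - s.B) < s.H := by
    intro v hv
    apply hs.prt
    rcases h.val v with h1 | h1
    · have := row_lt hs h1
      omega
    · omega
  set r : ℝ := s.m * (s.ω + s.δ) * D with hr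
  have hr0 : 0 ≤ r := by
    have h1 := omega_pos hs
    have h2 := hs.dpos
    positivity
  obtain ⟨c, hc1, hc2, hc3⟩ := hG V Γ ⌊r⌋₊
    (fun u v => if s.B ≤ cl u ∧ s.B ≤ cl v then
      lab s.st (s.Φ (s.part (cl u - s.B)) (s.part (cl v - s.B))) else ∅)
    (by
      intro u v
      by_cases h1 : s.B ≤ cl u ∧ s.B ≤ cl v
      · simp only [h1, if_true, and_self]
        rw [hs.Ph1 _ (hpart u h1.1) _ (hpart v h1.2)]
      · simp only [h1, if_false]
        rw [if_neg fun h => h1 h.symm])
    (by
      intro v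
      apply Nat.le_floor
      refine le_trans ?_ (nb_spe_le h v)
      have h1 : nb Γ univ v ≤ (univ.filter fun u => G.Adj v u ∧ s.B ≤ cl u).card := by
        convert nb_univ_le Γ G v (fun u => s.B ≤ cl u) fun u hu => ⟨hu.1, hu.2.2⟩
      exact_mod_cast h1)
    (by
      intro u v huv
      rw [if_pos huv.2]
      have h1 := hs.Ph3 _ (hpart u huv.2.1) _ (hpart v huv.2.2)
      have h2 := Nat.floor_le hr0
      have h3 : (2 * ⌊r⌋₊ : ℝ) ≤
          (lab s.st (s.Φ (s.part (cl u - s.B)) (s.part (cl v - s.B)))).card := by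
        have h4 : 2 * r = 2 * (s.m * (s.ω + s.δ)) * D := by rw [hr]; ring
        linarith
      exact_mod_cast h3)
  refine ⟨c, ⟨hc1, ?_, ?_⟩⟩
  · intro u v huv hu hv
    have h1 := hc2 u v ⟨huv, hu, hv⟩
    rwa [if_pos ⟨hu, hv⟩] at h1
  · intro u v w huv huw hu hv hw hne
    exact hc3 u v w ⟨huv, hu, hv⟩ ⟨huw, hu, hw⟩ hne

end

end Pool.Agent.H27.HW
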